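import Pool.Agent.W128.VA.Stm

/-!
# Project VA (MP_11a9fb_al): the vertex algebra structure on the Fock space
-/

set_option autoImplicit false

namespace Pool.Agent.W398.VA.FYn

open Finset Pool.Agent.W128.VA

theorem loc_hh (hHH : S_HH) : MLoc hop hop := by
  refine ⟨2, fun m n w => ?_⟩
  have key : ∀ a b : ℤ, hop a (hop b w) - hop b (hop a w) =
      (if a + b = 0 then (2 * (a : ℂ)) else 0) • w := fun a b => hHH a b w
  simp only [Finset.sum_range_succ, Finset.sum_range_zero, key]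
  have e0 : m + ((2 : ℕ) : ℤ) - ((0 : ℕ) : ℤ) + (n + ((0 : ℕ) : ℤ)) = m + n + 2 := by
    push_cast; ring
  have e1 : m + ((2 : ℕ) : ℤ) - ((1 : ℕ) : ℤ) + (n + ((1 : ℕ) : ℤ)) = m + n + 2 := by
    push_cast; ring
  have e2 : m + ((2 : ℕ) : ℤ) - ((2 : ℕ) : ℤ) + (n + ((2 : ℕ) : ℤ)) = m + n + 2 := by
    push_cast; ring
  rw [e0, e1, e2]
  by_cases h : m + n + 2 = 0
  · simp only [h, if_true, smul_smul, zero_add, ← add_smul]
    have : (-1 : ℂ) ^ 0 * ((Nat.choose 2 0 : ℕ) : ℂ) *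
        (2 * ((m + ((2 : ℕ) : ℤ) - ((0 : ℕ) : ℤ) : ℤ) : ℂ)) +
        (-1 : ℂ) ^ 1 * ((Nat.choose 2 1 : ℕ) : ℂ) *
        (2 * ((m + ((2 : ℕ) : ℤ) - ((1 : ℕ) : ℤ) : ℤ) : ℂ)) +
        (-1 : ℂ) ^ 2 * ((Nat.choose 2 2 : ℕ) : ℂ) *
        (2 * ((m + ((2 : ℕ) : ℤ) - ((2 : ℕ) : ℤ) : ℤ) : ℂ)) = 0 := by
      have h1 : Nat.choose 2 1 = 2 := rfl
      have h2 : Nat.choose 2 2 = 1 := rfl
      have h0 : Nat.choose 2 0 = 1 := rfl
      rw [h0, h1, h2]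
      push_cast
      ring
    rw [this, zero_smul]
  · simp [h]

theorem loc_he (hHE : S_HE) (σ : ℤ) : MLoc hop (eV σ) := by
  refine ⟨1, fun m n w => ?_⟩
  have key : ∀ a b : ℤ, hop a (eV σ b w) - eV σ b (hop a w) =
      (2 * (σ : ℂ)) • eV σ (a + b) w := fun a b => hHE σ a b w
  simp only [Finset.sum_range_succ, Finset.sum_range_zero, key]
  have e0 : m + ((1 : ℕ) : ℤ) - ((0 : ℕ) : ℤ) + (n + ((0 : ℕ) : ℤ)) = m + n + 1 := by
    push_cast; ring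
  have e1 : m + ((1 : ℕ) : ℤ) - ((1 : ℕ) : ℤ) + (n + ((1 : ℕ) : ℤ)) = m + n + 1 := by
    push_cast; ring
  rw [e0, e1]
  simp

theorem loc_eh (hHE : S_HE) (σ : ℤ) : MLoc (eV σ) hop := by
  refine ⟨1, fun m n w => ?_⟩
  have key : ∀ a b : ℤ, eV σ a (hop b w) - hop b (eV σ a w) = -((2 * (σ : ℂ)) • eV σ (b + a) w) := by
    intro a b
    rw [← hHE]
    abel
  simp only [Finset.sum_range_succ, Finset.sum_range_zero, key]
  have e0 : (n + ((0 : ℕ) : ℤ)) + (m + ((1 : ℕ) : ℤ) - ((0 : ℕ) : ℤ)) = m + n + 1 := by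
    push_cast; ring
  have e1 : (n + ((1 : ℕ) : ℤ)) + (m + ((1 : ℕ) : ℤ) - ((1 : ℕ) : ℤ)) = m + n + 1 := by
    push_cast; ring
  rw [e0, e1]
  simp

theorem loc_ee (hEE : S_EE) (σ : ℤ) (hσ : σ = 1 ∨ σ = -1) : MLoc (eV σ) (eV σ) := by
  refine ⟨0, fun m n w => ?_⟩
  simp only [Finset.sum_range_succ, Finset.sum_range_zero]
  rw [hEE σ hσ, sub_self]
  simp

theorem loc_ef (hEF : S_EF) : MLoc (eV 1) (eV (-1)) := by
  refine ⟨2, fun m n w => ?_⟩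
  have key : ∀ a b : ℤ, eV 1 a (eV (-1) b w) - eV (-1) b (eV 1 a w) =
      hop (a + b) w + (if a + b = 0 then (a : ℂ) else 0) • w := fun a b => hEF a b w
  simp only [Finset.sum_range_succ, Finset.sum_range_zero, key]
  have e0 : m + ((2 : ℕ) : ℤ) - ((0 : ℕ) : ℤ) + (n + ((0 : ℕ) : ℤ)) = m + n + 2 := by
    push_cast; ring
  have e1 : m + ((2 : ℕ) : ℤ) - ((1 : ℕ) : ℤ) + (n + ((1 : ℕ) : ℤ)) = m + n + 2 := by
    push_cast; ring
  have e2 : m + ((2 : ℕ) : ℤ) - ((2 : ℕ) : ℤ) + (n + ((2 : ℕ) : ℤ)) = m + n + 2 := by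
    push_cast; ring
  rw [e0, e1, e2]
  have h1 : Nat.choose 2 1 = 2 := rfl
  have h2 : Nat.choose 2 2 = 1 := rfl
  have h0 : Nat.choose 2 0 = 1 := rfl
  rw [h0, h1, h2]
  by_cases h : m + n + 2 = 0
  · simp only [h, if_true]
    push_cast
    module
  · simp only [h, if_false]
    push_cast
    module

theorem loc_fe (hEF : S_EF) : MLoc (eV (-1)) (eV 1) := by
  refine ⟨2, fun m n w => ?_⟩
  have key : ∀ a b : ℤ, eV (-1) a (eV 1 b w) - eV 1 b (eV (-1) a w) =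
      -(hop (b + a) w + (if b + a = 0 then (b : ℂ) else 0) • w) := by
    intro a b
    rw [← hEF]
    abel
  simp only [Finset.sum_range_succ, Finset.sum_range_zero, key]
  have e0 : (n + ((0 : ℕ) : ℤ)) + (m + ((2 : ℕ) : ℤ) - ((0 : ℕ) : ℤ)) = m + n + 2 := by
    push_cast; ring
  have e1 : (n + ((1 : ℕ) : ℤ)) + (m + ((2 : ℕ) : ℤ) - ((1 : ℕ) : ℤ)) = m + n + 2 := by
    push_cast; ring
  have e2 : (n + ((2 : ℕ) : ℤ)) + (m + ((2 : ℕ) : ℤ) - ((2 : ℕ) : ℤ)) = m + n + 2 := by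
    push_cast; ring
  rw [e0, e1, e2]
  have h1 : Nat.choose 2 1 = 2 := rfl
  have h2 : Nat.choose 2 2 = 1 := rfl
  have h0 : Nat.choose 2 0 = 1 := rfl
  rw [h0, h1, h2]
  by_cases h : m + n + 2 = 0
  · simp only [h, if_true]
    push_cast
    module
  · simp only [h, if_false]
    push_cast
    module

/-- VA-FY -/
theorem main : S_REC → S_HH → S_HE → S_EE → S_EF → S_TT → S_TRV → S_GEN → S_FY := by
  intro hREC hHH hHE hEE hEF hTT hTRV hGEN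
  obtain ⟨tr1, tr2, v1, v2, v3, v4, v5⟩ := hTRV
  obtain ⟨t1, t2⟩ := hTT
  obtain ⟨Y, y1, y2, y3, y4, y5, y6, y7, y8⟩ := hREC V0 vac1 T0
    ({⟨hop, tr1⟩, ⟨eV 1, tr2 1⟩, ⟨eV (-1), tr2 (-1)⟩} : Set (Fld V0)) v3
    (by
      rintro a (rfl | rfl | rfl)
      · exact ⟨t1, v1⟩
      · exact ⟨t2 1, v2 1⟩
      · exact ⟨t2 (-1), v2 (-1)⟩)
    (by
      rintro a (rfl | rfl | rfl) b (rfl | rfl | rfl)
      · exact loc_hh hHH
      · exact loc_he hHE 1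
      · exact loc_he hHE (-1)
      · exact loc_eh hHE 1
      · exact loc_ee hEE 1 (Or.inl rfl)
      · exact loc_ef hEF
      · exact loc_eh hHE (-1)
      · exact loc_fe hEF
      · exact loc_ee hEE (-1) (Or.inr rfl))
    (by
      intro U hU h
      exact hGEN U hU (h _ (Or.inl rfl)) (h _ (Or.inr (Or.inl rfl)))
        (h _ (Or.inr (Or.inr rfl))))
  refine ⟨⟨Y, ?_, ?_, ?_, y2, y3, y4, y5, y6, y7, y8⟩⟩
  · have := y1 ⟨hop, tr1⟩ (Or.inl rfl)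
    rw [← v4]
    exact this
  · have := y1 ⟨eV 1, tr2 1⟩ (Or.inr (Or.inl rfl))
    rw [← v5]
    exact this
  · have := y1 ⟨eV (-1), tr2 (-1)⟩ (Or.inr (Or.inr rfl))
    rw [← v5]
    exact this

end Pool.Agent.W398.VA.FYn
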